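import Pool.Agent.H741.EL.Stm

/-!
# `S_CB` (project EL of helper741): perturbation, the case `α < θp < β`
-/

set_option autoImplicit false
open MeasureTheory Metric Set Filter Topology

namespace Pool.Agent.H484.EL
open Pool.Agent.Y508 Pool.Agent.H741.EL

theorem t_CB (h1 : S_ZZ) (h2 : S_QQ) : S_CB := by
  intro a b p K θp α β R s hC hp hs0 hsR hW hA hα hβ
  obtain ⟨z1, z2⟩ := h1 a b p K θp α β hC hp hA
  clear h2
  have z1' := z1 hα
  have z2' := z2 hβ
  have hpi := Real.pi_pos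
  have h3 := hA.h3
  have hR : 0 < R := hs0.trans hsR
  obtain ⟨ω, hω⟩ : ∃ ω, ω = (α + β) / 2 := ⟨_, rfl⟩
  obtain ⟨m, hmdef⟩ : ∃ m, m = Real.cos ((β - α) / 2) := ⟨_, rfl⟩
  have hm : 0 < m := by
    rw [hmdef]
    exact Real.cos_pos_of_mem_Ioo ⟨by linarith, by linarith⟩
  have hsR1 : s / R < 1 := (div_lt_one hR).2 hsR
  have hsR0 : 0 < s / R := div_pos hs0 hR
  have harc : 0 < Real.arccos (s / R) := Real.arccos_pos.2 hsR1
  obtain ⟨φ₁, hφ⟩ : ∃ φ₁, φ₁ = min (Real.arccos (s / R)) (Real.pi / 2 - (β - α) / 2) := ⟨_, rfl⟩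
  have hφ0 : 0 < φ₁ := by
    rw [hφ]
    exact lt_min harc (by linarith)
  have hφa : φ₁ ≤ Real.arccos (s / R) := by
    rw [hφ]
    exact min_le_left _ _
  have hφb : φ₁ ≤ Real.pi / 2 - (β - α) / 2 := by
    rw [hφ]
    exact min_le_right _ _
  have hc0 : 0 < m / (2 * (s + R)) := by positivity
  have hcosm : ∀ θ ∈ Icc α β, m ≤ Real.cos (θ - ω) := by
    intro θ hθ
    rw [← Real.cos_abs (θ - ω), hmdef]
    apply Real.cos_le_cos_of_nonneg_of_le_pi (abs_nonneg _) (by linarith)
    rw [abs_le, hω]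
    constructor <;> linarith [hθ.1, hθ.2]
  refine ⟨ev ω, m / (2 * (s + R)), φ₁, ⟨hc0, hφ0, by linarith, ?_, ?_, ?_⟩⟩
  · intro φ hφ1
    constructor
    · have e1 : s / R ≤ Real.cos φ := by
        rw [← Real.cos_abs φ, ← Real.cos_arccos (by linarith) hsR1.le]
        exact Real.cos_le_cos_of_nonneg_of_le_pi (abs_nonneg _) (Real.arccos_le_pi _)
          (hφ1.trans hφa)
      rw [div_le_iff₀ hR] at e1
      linarith
    · rw [ip_ev]
      obtain ⟨f1, f2⟩ := abs_le.1 hφ1
      exact Real.cos_nonneg_of_mem_Icc ⟨by rw [hω]; linarith, by rw [hω]; linarith⟩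
  · intro θ hθ hc
    rw [ip_ev]
    have e1 : m ≤ Real.cos (θ - ω) := by
      by_cases hle : θ ≤ β
      · exact hcosm θ ⟨by linarith [hθ.1], hle⟩
      · have hge : α + 2 * Real.pi ≤ θ := by
          by_contra hlt
          have := hA.off θ ⟨not_le.1 hle, not_le.1 hlt⟩
          linarith
        have e2 := hcosm (θ - 2 * Real.pi) ⟨by linarith, by linarith [hθ.2]⟩
        have e3 : Real.cos (θ - ω) = Real.cos (θ - 2 * Real.pi - ω) := by
          rw [show θ - 2 * Real.pi - ω = (θ - ω) - 2 * Real.pi by ring, Real.cos_sub_two_pi]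
        rw [e3]
        exact e2
    have e4 : max (s - R * Real.cos (θ - θp)) 0 ≤ s + R := by
      apply max_le
      · have := Real.neg_one_le_cos (θ - θp)
        nlinarith
      · linarith
    calc m / (2 * (s + R)) * max (s - R * Real.cos (θ - θp)) 0 ≤ m / (2 * (s + R)) * (s + R) :=
          mul_le_mul_of_nonneg_left e4 hc0.le
      _ = m / 2 := by field_simp
      _ < m := by linarith
      _ ≤ _ := e1
  · have hpos : 0 < m / (2 * (s + R)) * (W K - 2 * Real.pi * R) := mul_pos hc0 (by linarith)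
    refine lt_of_eq_of_lt ?_ hpos
    have hper : Function.Periodic
        (fun θ : ℝ => if hs K θ = ip p θ then max (ip (ev ω) θ) 0 else 0) (2 * Real.pi) := by
      intro θ
      show (if hs K (θ + 2 * Real.pi) = ip p (θ + 2 * Real.pi) then
        max (ip (ev ω) (θ + 2 * Real.pi)) 0 else 0) = _
      rw [hs_two_pi, ip_two_pi, ip_two_pi]
    have e1 := hper.intervalIntegral_add_eq 0 (θp - Real.pi)
    rw [zero_add] at e1
    rw [e1]
    apply intervalIntegral.integral_zero_ae
    have hne : ∀ᵐ θ : ℝ, θ ≠ θp := by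
      rw [ae_iff]
      simp
    filter_upwards [hne] with θ hθ hmem
    rw [uIoc_of_le (by linarith)] at hmem
    have hlt : ip p θ < hs K θ := by
      rcases lt_or_gt_of_ne hθ with h | h
      · exact z1' θ ⟨hmem.1.le, h⟩
      · exact z2' θ ⟨h, by linarith [hmem.2]⟩
    rw [if_neg (ne_of_gt hlt)]

end Pool.Agent.H484.EL
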